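import Pool.Agent.helper28.LT.Defs

set_option autoImplicit false

/-!
# Discriminants are square multiples of fundamental ones
-/

namespace Pool.Agent.helper28.LT

open Finset NumberField Pool.Agent.helper3.FT Pool.Agent.helper47.RA

/-- DE: discriminants are square multiples of fundamental ones -/
theorem exists_fund (D : ℤ) (hD : D < 0) (h4 : D % 4 = 0 ∨ D % 4 = 1) :
    ∃ (f : ℕ) (D₀ : ℤ), 1 ≤ f ∧ IsFund D₀ ∧ D = (f : ℤ) ^ 2 * D₀ := by
  obtain ⟨a, b, hab, hsq⟩ := Nat.sq_mul_squarefree D.natAbs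
  have hN : 0 < D.natAbs := Int.natAbs_pos.2 hD.ne
  have hb : 1 ≤ b := by
    rcases Nat.eq_zero_or_pos b with h | h
    · subst h
      simp at hab
      omega
    · exact h
  have hDab : D = (b : ℤ) ^ 2 * (-(a : ℤ)) := by
    have h1 : (D.natAbs : ℤ) = (b : ℤ) ^ 2 * a := by
      rw [← hab]; push_cast; ring
    have h2 : (D.natAbs : ℤ) = -D := by
      rw [Int.natCast_natAbs, abs_of_neg hD]
    linarith
  have hsqZ : Squarefree (-(a : ℤ)) := by
    rw [← Int.squarefree_natAbs]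
    simpa using hsq
  have ha0 : a ≠ 0 := hsq.ne_zero
  set c : ℤ := -(a : ℤ) with hc
  have hcneg : c < 0 := by omega
  have hc0 : c % 4 ≠ 0 := by
    intro h
    obtain ⟨w, hw⟩ := Int.dvd_of_emod_eq_zero h
    have h2 : (2 : ℤ) * 2 ∣ c := ⟨w, by rw [hw]; ring⟩
    have h3 := hsqZ 2 h2
    rw [Int.isUnit_iff] at h3
    omega
  have hcases : c % 4 = 1 ∨ c % 4 = 2 ∨ c % 4 = 3 := by omega
  rcases hcases with h1 | h23
  · exact ⟨b, c, hb, Or.inl ⟨h1, by omega, hsqZ⟩, hDab⟩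
  · have hbe : b % 2 = 0 := by
      by_contra hodd
      obtain ⟨w, hw⟩ : ∃ w : ℕ, b = 2 * w + 1 := ⟨b / 2, by omega⟩
      have h5 : D = 4 * (((w : ℤ) ^ 2 + w) * c) + c := by
        rw [hDab, hw]; push_cast; ring
      omega
    obtain ⟨w, hw⟩ : ∃ w : ℕ, b = 2 * w := ⟨b / 2, by omega⟩
    refine ⟨w, 4 * c, by omega, Or.inr ⟨c, rfl, h23, hsqZ⟩, ?_⟩
    rw [hDab, hw]
    push_cast
    ring

end Pool.Agent.helper28.LT
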