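import Pool.Agent.helper28.LT.Defs
import Pool.Agent.helper79.DyadicPrimes

/-! LT project, module PC: many pairs of distinct primes in `(4κ, 8κ]`. -/

namespace Pool.Agent.helper28.LT

open Finset

open Pool.Agent.helper79.DyadicPrimes in
theorem PP_card : ∃ c : ℝ, 0 < c ∧ ∃ κ₀ : ℕ, ∀ κ : ℕ, κ₀ ≤ κ →
    c * ((κ : ℝ) / Real.log κ) ^ 2 ≤ ((PP κ).card : ℝ) := by
  refine ⟨1 / 32, by norm_num, 100000000, fun κ hκ => ?_⟩
  have hκR : (100000000 : ℝ) ≤ κ := by exact_mod_cast hκ
  have h1 := card_dy_ge (n := 4 * κ) (by omega)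
  have hPP : PP κ = (dy (4 * κ)).offDiag := by
    ext ⟨a, b⟩
    simp only [PP, mem_filter, mem_product, mem_Ioc, mem_offDiag, dy,
      show 2 * (4 * κ) = 8 * κ by ring]
    tauto
  rw [hPP, Finset.offDiag_card]
  set D : ℕ := (dy (4 * κ)).card with hD
  have hlog : 0 < Real.log κ := Real.log_pos (by linarith)
  have hlog4 : Real.log ((4 * κ : ℕ) : ℝ) ≤ 2 * Real.log κ := by
    push_cast
    rw [Real.log_mul (by norm_num) (by linarith)]
    have : Real.log 4 ≤ Real.log κ := Real.log_le_log (by norm_num) (by linarith)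
    linarith
  have hlog4' : 0 < Real.log ((4 * κ : ℕ) : ℝ) := Real.log_pos (by push_cast; linarith)
  set q : ℝ := (κ : ℝ) / Real.log κ with hq
  have hD1 : q / 4 ≤ (D : ℝ) := by
    refine le_trans ?_ h1
    rw [hq, div_div, div_le_div_iff₀ (by positivity) (by positivity)]
    push_cast at *
    nlinarith
  have hlogle : Real.log κ ≤ 2 * Real.sqrt κ := by
    have h := Real.log_le_sub_one_of_pos (Real.sqrt_pos.mpr (show (0 : ℝ) < κ by linarith))
    rw [Real.log_sqrt (by linarith)] at h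
    linarith
  have hq8 : 8 ≤ q := by
    rw [hq, le_div_iff₀ hlog]
    have h2 : Real.sqrt κ * Real.sqrt κ = κ := Real.mul_self_sqrt (by linarith)
    have h3 : (16 : ℝ) ≤ Real.sqrt κ := by
      apply Real.le_sqrt_of_sq_le
      linarith
    nlinarith
  have hD2 : (2 : ℝ) ≤ D := by linarith
  have hDn : D ≤ D * D := Nat.le_mul_self D
  rw [Nat.cast_sub hDn]
  push_cast
  nlinarith

end Pool.Agent.helper28.LT
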