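import Pool.Agent.helper28.LT.Defs

set_option autoImplicit false

/-!
# Basic facts of `lam` and `dis`
-/

namespace Pool.Agent.helper28.LT

open Finset NumberField Pool.Agent.helper3.FT Pool.Agent.helper47.RA

/-- divisibility facts -/
theorem LF_div {n k m g Z : ℤ} (hcop : IsCoprime n k)
    (h1 : n ^ 3 ∣ Z * k ^ 4 + m * g * k ^ 2 - g ^ 2 * n ^ 2) (h2 : k ∣ m ^ 2 - Z * n ^ 2)
    (hn0 : n ≠ 0) (hk0 : k ≠ 0) :
    ∃ Λ D : ℤ, m * g + Z * k ^ 2 = Λ * n ^ 2 ∧ n ∣ g ^ 2 - Λ * k ^ 2 ∧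
      (Z * g - Λ * m) ^ 2 - 4 * Z ^ 2 * Λ * k ^ 2 = D * (n * k) ^ 2 := by
  have hA : n ^ 2 ∣ m * g + Z * k ^ 2 := by
    have h3 : n ^ 2 ∣ k ^ 2 * (m * g + Z * k ^ 2) := by
      obtain ⟨w, hw⟩ := h1
      exact ⟨n * w + g ^ 2, by linear_combination hw⟩
    exact (hcop.pow_left (m := 2) |>.pow_right (n := 2)).dvd_of_dvd_mul_left h3
  obtain ⟨Λ, hΛ⟩ := hA
  have hB : n ∣ g ^ 2 - Λ * k ^ 2 := by
    obtain ⟨w, hw⟩ := h1
    refine ⟨-w, ?_⟩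
    have h3 : n ^ 2 * (g ^ 2 - Λ * k ^ 2) = n ^ 2 * (n * -w) := by
      linear_combination -hw + k ^ 2 * hΛ
    exact mul_left_cancel₀ (pow_ne_zero 2 hn0) h3
  have hC : k ∣ Z * g - Λ * m := by
    have h3 : k ∣ n ^ 2 * (Z * g - Λ * m) := by
      obtain ⟨w, hw⟩ := h2
      exact ⟨-g * w - Z * k * m, by linear_combination (-g) * hw + m * hΛ⟩
    exact (hcop.symm.pow_right (n := 2)).dvd_of_dvd_mul_left h3
  have hD : n ∣ Z * g + Λ * m := by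
    have h3 : n ∣ k ^ 2 * (Z * g + Λ * m) := by
      obtain ⟨w, hw⟩ := hB
      exact ⟨g * Λ * n - m * w, by linear_combination (-m) * hw + g * hΛ⟩
    exact (hcop.pow_right (n := 2)).dvd_of_dvd_mul_left h3
  have hE : (n * k) ^ 2 ∣ (Z * g - Λ * m) ^ 2 - 4 * Z ^ 2 * Λ * k ^ 2 := by
    rw [mul_pow]
    refine (hcop.pow_left (m := 2) |>.pow_right (n := 2)).mul_dvd ?_ ?_
    · obtain ⟨w, hw⟩ := hD
      refine ⟨w ^ 2 - 4 * Z * Λ ^ 2, ?_⟩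
      have h3 : (Z * g - Λ * m) ^ 2 - 4 * Z ^ 2 * Λ * k ^ 2 =
          (Z * g + Λ * m) ^ 2 - 4 * Z * Λ * (m * g + Z * k ^ 2) := by ring
      rw [h3, hw, hΛ]
      ring
    · obtain ⟨w, hw⟩ := hC
      refine ⟨w ^ 2 - 4 * Z ^ 2 * Λ, ?_⟩
      rw [hw]
      ring
  obtain ⟨D, hD'⟩ := hE
  exact ⟨Λ, D, by rw [hΛ]; ring, hB, by rw [hD']; ring⟩

/-- sizes of `Λ` -/
theorem LF_size {K S n k m g Z Λ : ℤ} (hK : 1 ≤ K) (hS : 1 ≤ S) (n1 : 4 * K < n) (n2 : n ≤ 8 * K)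
    (k1 : 4 * K < k) (k2 : k ≤ 8 * K) (hm : |m| ≤ K ^ 2 * S) (hg : |g| ≤ K ^ 2 * S)
    (Z1 : 64 * K ^ 2 * S ^ 2 ≤ Z) (Z2 : Z ≤ 128 * K ^ 2 * S ^ 2)
    (h : m * g + Z * k ^ 2 = Λ * n ^ 2) :
    15 * K ^ 2 * S ^ 2 ≤ Λ ∧ Λ ≤ 513 * K ^ 2 * S ^ 2 := by
  have hK2 : 0 < K ^ 2 := by positivity
  have hS2 : 0 < S ^ 2 := by positivity
  have hn2 : n ^ 2 ≤ 64 * K ^ 2 := by nlinarith
  have hn2' : 16 * K ^ 2 ≤ n ^ 2 := by nlinarith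
  have hk2 : k ^ 2 ≤ 64 * K ^ 2 := by nlinarith
  have hk2' : 16 * K ^ 2 ≤ k ^ 2 := by nlinarith
  have hKS : 0 ≤ K ^ 2 * S := by positivity
  have hmg : |m * g| ≤ (K ^ 2 * S) * (K ^ 2 * S) := by
    rw [abs_mul]
    exact mul_le_mul hm hg (abs_nonneg _) hKS
  have hmg' := abs_le.1 hmg
  have hP : 0 < K ^ 2 * S ^ 2 := by positivity
  have e1 : 64 * K ^ 2 * S ^ 2 * (16 * K ^ 2) ≤ Z * k ^ 2 :=
    mul_le_mul Z1 hk2' (by positivity) (le_trans (by positivity) Z1)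
  have e2 : Z * k ^ 2 ≤ 128 * K ^ 2 * S ^ 2 * (64 * K ^ 2) :=
    mul_le_mul Z2 hk2 (by positivity) (by positivity)
  have hΛpos : 0 < Λ := by
    by_contra hneg
    push Not at hneg
    have : Λ * n ^ 2 ≤ 0 := mul_nonpos_of_nonpos_of_nonneg hneg (by positivity)
    have h3 : 0 < K ^ 2 * S * (K ^ 2 * S) := by positivity
    nlinarith [hmg'.1, e1, h3]
  constructor
  · by_contra hlt
    push Not at hlt
    have h3 : Λ * n ^ 2 ≤ (15 * K ^ 2 * S ^ 2) * (64 * K ^ 2) :=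
      mul_le_mul hlt.le hn2 (by positivity) (by positivity)
    have h4 : 0 < K ^ 2 * S * (K ^ 2 * S) := by positivity
    nlinarith [hmg'.1, e1, h3, h4]
  · by_contra hlt
    push Not at hlt
    have h3 : (513 * K ^ 2 * S ^ 2) * (16 * K ^ 2) ≤ Λ * n ^ 2 :=
      mul_le_mul hlt.le hn2' (by positivity) hΛpos.le
    have h4 : 0 < K ^ 2 * S * (K ^ 2 * S) := by positivity
    nlinarith [hmg'.2, e2, h3, h4]

/-- sizes of the discriminant -/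
theorem LF_dsize {K S n k m g Z Λ D : ℤ} (hK : 1 ≤ K) (hS : 1 ≤ S) (n1 : 4 * K < n)
    (n2 : n ≤ 8 * K) (k1 : 4 * K < k) (k2 : k ≤ 8 * K) (hm : |m| ≤ K ^ 2 * S)
    (hg : |g| ≤ K ^ 2 * S) (Z1 : 64 * K ^ 2 * S ^ 2 ≤ Z) (Z2 : Z ≤ 128 * K ^ 2 * S ^ 2)
    (L1 : 15 * K ^ 2 * S ^ 2 ≤ Λ) (L2 : Λ ≤ 513 * K ^ 2 * S ^ 2)
    (h : (Z * g - Λ * m) ^ 2 - 4 * Z ^ 2 * Λ * k ^ 2 = D * (n * k) ^ 2) :
    859 * K ^ 4 * S ^ 6 ≤ -D ∧ -D ≤ 2 ^ 22 * K ^ 4 * S ^ 6 := by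
  have hn2 : n ^ 2 ≤ 64 * K ^ 2 := by nlinarith
  have hn2' : 16 * K ^ 2 ≤ n ^ 2 := by nlinarith
  have hk2 : k ^ 2 ≤ 64 * K ^ 2 := by nlinarith
  have hk2' : 16 * K ^ 2 ≤ k ^ 2 := by nlinarith
  have hZ0 : 0 ≤ Z := le_trans (by positivity) Z1
  have hL0 : 0 ≤ Λ := le_trans (by positivity) L1
  have hKS : 0 ≤ K ^ 2 * S := by positivity
  have a1 : |Z * g| ≤ 128 * K ^ 2 * S ^ 2 * (K ^ 2 * S) := by
    rw [abs_mul, abs_of_nonneg hZ0]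
    exact mul_le_mul Z2 hg (abs_nonneg _) (by positivity)
  have a2 : |Λ * m| ≤ 513 * K ^ 2 * S ^ 2 * (K ^ 2 * S) := by
    rw [abs_mul, abs_of_nonneg hL0]
    exact mul_le_mul L2 hm (abs_nonneg _) (by positivity)
  have a3 : |Z * g - Λ * m| ≤ 641 * (K ^ 4 * S ^ 3) := by
    have := abs_sub (Z * g) (Λ * m)
    calc |Z * g - Λ * m| ≤ |Z * g| + |Λ * m| := this
      _ ≤ 128 * K ^ 2 * S ^ 2 * (K ^ 2 * S) + 513 * K ^ 2 * S ^ 2 * (K ^ 2 * S) := add_le_add a1 a2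
      _ = 641 * (K ^ 4 * S ^ 3) := by ring
  have a4 : (Z * g - Λ * m) ^ 2 ≤ 410881 * (K ^ 8 * S ^ 6) := by
    calc (Z * g - Λ * m) ^ 2 = |Z * g - Λ * m| ^ 2 := (sq_abs _).symm
      _ ≤ (641 * (K ^ 4 * S ^ 3)) ^ 2 := pow_le_pow_left₀ (abs_nonneg _) a3 2
      _ = 410881 * (K ^ 8 * S ^ 6) := by ring
  have z1 : (64 * K ^ 2 * S ^ 2) ^ 2 ≤ Z ^ 2 := pow_le_pow_left₀ (by positivity) Z1 2
  have z2 : Z ^ 2 ≤ (128 * K ^ 2 * S ^ 2) ^ 2 := pow_le_pow_left₀ hZ0 Z2 2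
  have b1 : 3932160 * (K ^ 8 * S ^ 6) ≤ 4 * Z ^ 2 * Λ * k ^ 2 := by
    calc 3932160 * (K ^ 8 * S ^ 6)
        = 4 * (64 * K ^ 2 * S ^ 2) ^ 2 * (15 * K ^ 2 * S ^ 2) * (16 * K ^ 2) := by ring
      _ ≤ 4 * Z ^ 2 * Λ * k ^ 2 := by gcongr
  have b2 : 4 * Z ^ 2 * Λ ≤ 33619968 * (K ^ 6 * S ^ 6) := by
    calc 4 * Z ^ 2 * Λ ≤ 4 * (128 * K ^ 2 * S ^ 2) ^ 2 * (513 * K ^ 2 * S ^ 2) := by gcongr
      _ = 33619968 * (K ^ 6 * S ^ 6) := by ring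
  have hnk : (n * k) ^ 2 ≤ 4096 * K ^ 4 := by
    calc (n * k) ^ 2 = n ^ 2 * k ^ 2 := by ring
      _ ≤ (64 * K ^ 2) * (64 * K ^ 2) := mul_le_mul hn2 hk2 (by positivity) (by positivity)
      _ = 4096 * K ^ 4 := by ring
  have hP8 : 0 < K ^ 8 * S ^ 6 := by positivity
  have hDneg : D < 0 := by
    by_contra hge
    push Not at hge
    have : 0 ≤ D * (n * k) ^ 2 := by positivity
    nlinarith
  constructor
  · by_contra hlt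
    push Not at hlt
    have h3 : (-D) * (n * k) ^ 2 ≤ (859 * K ^ 4 * S ^ 6) * (4096 * K ^ 4) :=
      mul_le_mul hlt.le hnk (by positivity) (by positivity)
    have h4 : (859 * K ^ 4 * S ^ 6) * (4096 * K ^ 4) = 3518464 * (K ^ 8 * S ^ 6) := by ring
    rw [h4] at h3
    nlinarith
  · have hk0 : 0 < k ^ 2 := lt_of_lt_of_le (by positivity) hk2'
    have h3 : (-D) * n ^ 2 ≤ 4 * Z ^ 2 * Λ := by
      have h5 : ((-D) * n ^ 2) * k ^ 2 ≤ (4 * Z ^ 2 * Λ) * k ^ 2 := by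
        have : ((-D) * n ^ 2) * k ^ 2 = 4 * Z ^ 2 * Λ * k ^ 2 - (Z * g - Λ * m) ^ 2 := by
          linear_combination h
        rw [this]
        have := sq_nonneg (Z * g - Λ * m)
        linarith
      exact le_of_mul_le_mul_right h5 hk0
    by_contra hlt
    push Not at hlt
    have h6 : (2 ^ 22 * K ^ 4 * S ^ 6) * (16 * K ^ 2) ≤ (-D) * n ^ 2 :=
      mul_le_mul hlt.le hn2' (by positivity) (by linarith)
    have h7 : (2 ^ 22 * K ^ 4 * S ^ 6) * (16 * K ^ 2) = 67108864 * (K ^ 6 * S ^ 6) := by ring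
    rw [h7] at h6
    have h8 : 0 < K ^ 6 * S ^ 6 := by positivity
    linarith

/-- LF: basic facts of `lam` and `dis` -/
theorem lam_dis (κ s : ℕ) (hκ : 1 ≤ κ) (hs : 1 ≤ s) (t : Tpl) (ht : t ∈ TT κ s 1)
    (hr : ¬ Rare t) : TupD κ s t (dis t) := by
  obtain ⟨⟨n, k⟩, m, g, Z⟩ := t
  simp only [TT, PP, cls, mem_filter, mem_product, mem_Icc, mem_Ioc] at ht
  obtain ⟨⟨⟨⟨⟨n1, n2⟩, ⟨k1, k2⟩⟩, hn, hk, hnk⟩, ⟨⟨hm1, hm2⟩, _⟩, ⟨⟨hg1, hg2⟩, _⟩, Z1, Z2⟩,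
    h1, h2⟩ := ht
  have hn0 : (n : ℤ) ≠ 0 := by have := hn.ne_zero; exact_mod_cast this
  have hk0 : (k : ℤ) ≠ 0 := by have := hk.ne_zero; exact_mod_cast this
  have hcop : IsCoprime (n : ℤ) k := by
    rw [Nat.isCoprime_iff_coprime]
    exact (Nat.coprime_primes hn hk).2 hnk
  obtain ⟨Λ, D, e1, e3, e4⟩ := LF_div hcop h1 h2 hn0 hk0
  have hlam : lam ((n, k), (m, g, Z)) = Λ := by
    unfold lam
    simp only
    rw [e1]
    exact Int.mul_ediv_cancel _ (pow_ne_zero 2 hn0)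
  have hdis : dis ((n, k), (m, g, Z)) = D := by
    unfold dis
    rw [hlam]
    simp only
    rw [e4]
    exact Int.mul_ediv_cancel _ (pow_ne_zero 2 (mul_ne_zero hn0 hk0))
  have hK : (1 : ℤ) ≤ κ := by exact_mod_cast hκ
  have hS : (1 : ℤ) ≤ s := by exact_mod_cast hs
  have n1' : 4 * (κ : ℤ) < n := by exact_mod_cast n1
  have n2' : (n : ℤ) ≤ 8 * κ := by exact_mod_cast n2
  have k1' : 4 * (κ : ℤ) < k := by exact_mod_cast k1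
  have k2' : (k : ℤ) ≤ 8 * κ := by exact_mod_cast k2
  have hm : |m| ≤ (κ : ℤ) ^ 2 * s := abs_le.2 ⟨by push_cast at hm1; linarith, by push_cast at hm2; linarith⟩
  have hg : |g| ≤ (κ : ℤ) ^ 2 * s := abs_le.2 ⟨by push_cast at hg1; linarith, by push_cast at hg2; linarith⟩
  obtain ⟨L1, L2⟩ := LF_size hK hS n1' n2' k1' k2' hm hg Z1 Z2 e1
  obtain ⟨D1, D2⟩ := LF_dsize hK hS n1' n2' k1' k2' hm hg Z1 Z2 L1 L2 e4
  have hr' := hr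
  unfold Rare at hr'
  rw [hlam] at hr'
  simp only at hr'
  push Not at hr'
  obtain ⟨r1, r2, r3, r4, r5⟩ := hr'
  have nodd : n % 2 = 1 := by
    rcases hn.eq_two_or_odd with h | h
    · omega
    · exact h
  have kodd : k % 2 = 1 := by
    rcases hk.eq_two_or_odd with h | h
    · omega
    · exact h
  have D4 : D % 4 = 0 ∨ D % 4 = 1 := by
    have hno : ((n : ℤ)) % 2 = 1 := by exact_mod_cast nodd
    have hko : ((k : ℤ)) % 2 = 1 := by exact_mod_cast kodd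
    have hnk2 : ((n : ℤ) * k) % 2 = 1 := by
      rw [Int.mul_emod, hno, hko]; rfl
    have h4 : ((n : ℤ) * k) ^ 2 % 4 = 1 := by
      obtain ⟨a, ha⟩ : ∃ a, (n : ℤ) * k = 2 * a + 1 := ⟨((n : ℤ) * k) / 2, by omega⟩
      rw [ha]
      have : (2 * a + 1) ^ 2 = 4 * (a ^ 2 + a) + 1 := by ring
      rw [this]
      omega
    have h5 : (Z * g - Λ * m) ^ 2 % 4 = 0 ∨ (Z * g - Λ * m) ^ 2 % 4 = 1 := by
      rcases Int.even_or_odd' (Z * g - Λ * m) with ⟨a, ha | ha⟩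
      · left
        rw [ha]
        have : (2 * a) ^ 2 = 4 * a ^ 2 := by ring
        rw [this]
        omega
      · right
        rw [ha]
        have : (2 * a + 1) ^ 2 = 4 * (a ^ 2 + a) + 1 := by ring
        rw [this]
        omega
    have h6 : (D * ((n : ℤ) * k) ^ 2) % 4 = (Z * g - Λ * m) ^ 2 % 4 := by
      rw [← e4]
      have : (Z * g - Λ * m) ^ 2 - 4 * Z ^ 2 * Λ * (k : ℤ) ^ 2 =
        (Z * g - Λ * m) ^ 2 - 4 * (Z ^ 2 * Λ * (k : ℤ) ^ 2) := by ring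
      rw [this]
      omega
    have h7 : (D * ((n : ℤ) * k) ^ 2) % 4 = D % 4 := by
      obtain ⟨a, ha⟩ : ∃ a, ((n : ℤ) * k) ^ 2 = 4 * a + 1 := ⟨((n : ℤ) * k) ^ 2 / 4, by omega⟩
      rw [ha]
      have : D * (4 * a + 1) = 4 * (D * a) + D := by ring
      rw [this]
      omega
    rw [h7] at h6
    rw [h6]
    exact h5
  unfold TupD
  rw [hlam, hdis]
  exact
    { hn := hn, hk := hk, hnk := hnk, n1 := n1, n2 := n2, k1 := k1, k2 := k2, hm := hm, hg := hg,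
      Z1 := Z1, Z2 := Z2, L1 := L1, L2 := L2
      e1 := by simp only; linarith [e1]
      e2 := h2, e3 := e3, e4 := e4.symm, D1 := D1, D2 := D2, D4 := D4
      r1 := r1, r2 := r2, r3 := r3, r4 := r4
      r5 := fun h => r5 h.1 h.2 }

end Pool.Agent.helper28.LT
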